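import Pool.Agent.H32.SJ.Pull
import Pool.Graph.R_pool_sql_team_seeded_63374d34.N162.BC.Main

/-!
Fibred surfaces whose Jacobians are factors of the Jacobians of other fibred surfaces.
-/

set_option autoImplicit false
set_option linter.overlappingInstances false
set_option linter.unusedSectionVars false

open FF Polynomial Pool.Agent.W603.LV Pool.Agent.W602.GT Pool.Agent.W619.PQ Pool.Agent.N162.BC
open Pool.Agent.Y172 Pool.Agent.N162.PR

namespace Pool.Agent.H32.SJ

section

variable {K Ω : Type} [Field K] [Algebra ℂ K] [Field Ω] [Algebra ℂ Ω]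

theorem fibre_add {L : IntermediateField ℂ K} {n : ℕ} {ω ω' : (Fin n → Derivation ℂ K K) → K}
    (h : FibreForm L n ω) (h' : FibreForm L n ω') : FibreForm L n (fun D => ω D + ω' D) := by
  refine ⟨fun A D => ?_, fun P hP D hD => ?_⟩
  · dsimp only
    rw [h.1 A D, h'.1 A D]
    ring
  · exact P.reg_add (h.2 P hP D hD) (h'.2 P hP D hD)

theorem fibre_mul {L : IntermediateField ℂ K} {n : ℕ} {ω : (Fin n → Derivation ℂ K K) → K}
    (h : FibreForm L n ω) {l : K} (hl : l ∈ L) : FibreForm L n (fun D => l * ω D) := by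
  refine ⟨fun A D => ?_, fun P hP D hD => ?_⟩
  · dsimp only
    rw [h.1 A D]
    ring
  · refine P.reg_mul ?_ (h.2 P hP D hD)
    by_cases hl0 : l = 0
    · exact Or.inl hl0
    · exact Or.inr (hP l hl hl0).ge

theorem fibre_sum {L : IntermediateField ℂ K} {n : ℕ} {κ : Type} (s : Finset κ)
    {ω : κ → (Fin n → Derivation ℂ K K) → K} (h : ∀ k ∈ s, FibreForm L n (ω k)) :
    FibreForm L n (fun D => ∑ k ∈ s, ω k D) := by
  classical
  induction s using Finset.induction_on with
  | empty =>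
    refine ⟨fun A D => ?_, fun P hP D hD => ?_⟩
    · simp
    · left
      simp
  | insert k s hk ih =>
    have h1 : (fun D => ∑ k ∈ insert k s, ω k D) = fun D => ω k D + ∑ k ∈ s, ω k D := by
      funext D
      rw [Finset.sum_insert hk]
    rw [h1]
    exact fibre_add (h k (Finset.mem_insert_self k s))
      (ih fun k' hk' => h k' (Finset.mem_insert_of_mem hk'))

/-- the forms which are regular on the generic fibre separate the fibres -/
theorem separates_all {L : IntermediateField ℂ K} {n : ℕ} (U : Finset (L →ₐ[ℂ] Ω)) :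
    Separates (n := n) L (FibreForm L n) (FibreForm L n) U := by
  classical
  intro φ hadd hmul hG u hu ω hω
  have h1 : ∀ l : L, ∑ u ∈ U, u l * φ u ω = 0 := by
    intro l
    rw [← hG _ (fibre_mul hω l.2)]
    exact Finset.sum_congr rfl fun u hu => (hmul u hu l ω hω).symm
  have hli := linearIndependent_toLinearMap ℂ L Ω
  rw [linearIndependent_iff'] at hli
  refine hli U (fun u => φ u ω) ?_ u hu
  ext l
  rw [LinearMap.sum_apply]
  rw [LinearMap.zero_apply, ← h1 l]
  refine Finset.sum_congr rfl fun u _ => ?_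
  rw [LinearMap.smul_apply, smul_eq_mul, mul_comm]
  rfl

end

section

variable {X : FibredSurface} {Ω : Type} [Field Ω] [Algebra ℂ Ω]

theorem rat_of_trace [IsAlgClosed Ω] (hΩ : Algebra.trdeg ℂ Ω = 2) {c : (X.K →ₐ[ℂ] Ω) →₀ ℤ}
    (hc : ∀ ω, FibreForm X.L 2 ω → ∀ (z : Fin 2 → X.K) (E : Fin 2 → Derivation ℂ X.K X.K),
      IsTranscendenceBasis ℂ z → (∀ i j, E i (z j) = if i = j then 1 else 0) →
      ∀ D : Fin 2 → Derivation ℂ Ω Ω, tr z E ω D c = 0) : c ∈ Pool.Agent.N162.BC.Rat X.K Ω := by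
  classical
  have hK : Algebra.trdeg ℂ X.K = ((1 + 1 : ℕ) : Cardinal) := by
    rw [X.trdeg]
    norm_num
  have hΩ' : Algebra.trdeg ℂ Ω = ((1 + 1 : ℕ) : Cardinal) := by
    rw [hΩ]
    norm_num
  have hL : Algebra.trdeg ℂ X.L = ((1 : ℕ) : Cardinal) := by
    rw [X.trdeg_base]
    norm_num
  exact Pool.Agent.N162.BC.main (m := 1) hK hΩ' X.L hL X.closed (G := FibreForm X.L 2)
    (V := FibreForm X.L 2) (fun ω h => h) (fun ω h => GMSpan.base h)
    (separates_all (c.support.image fun σ => σ.comp X.L.val)) hc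
    (fun σ hσ => Finset.mem_image_of_mem _ hσ)

theorem exists_frame (X : FibredSurface) : ∃ (z : Fin 2 → X.K) (E : Fin 2 → Derivation ℂ X.K X.K),
    IsTranscendenceBasis ℂ z ∧ ∀ i j, E i (z j) = if i = j then 1 else 0 := by
  obtain ⟨z, hz⟩ := exists_tb (k := ℂ) (L := X.K) (m := 2) (by rw [X.trdeg]; norm_num)
  choose E hE using fun i : Fin 2 => Pool.Agent.W602.GT.exists_der _ hz
    fun j => if i = j then (1 : X.K) else 0
  exact ⟨z, E, hz, hE⟩

theorem Corr.ess {Y : FibredSurface} (C : Corr X Y) : Algebra.EssFiniteType ℂ C.N :=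
  Algebra.EssFiniteType.comp ℂ X.K C.N

theorem exists_up {K N : Type} [Field K] [Algebra ℂ K] [Field N] [Algebra ℂ N] [Algebra K N]
    [IsScalarTower ℂ K N] [FiniteDimensional K N] {z : Fin 2 → K} (hz : IsTranscendenceBasis ℂ z) :
    ∃ E : Fin 2 → Derivation ℂ N N,
      ∀ i j, E i (algebraMap K N (z j)) = if i = j then 1 else 0 := by
  have hz2 : IsTranscendenceBasis ℂ (fun j => algebraMap K N (z j)) := hz.algebraMap_comp
  choose E hE using fun i : Fin 2 => Pool.Agent.W602.GT.exists_der _ hz2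
    fun j => if i = j then (1 : N) else 0
  exact ⟨E, hE⟩

theorem Corr.exists_transfer {Y : FibredSurface} (C : Corr X Y)
    {ω : (Fin 2 → Derivation ℂ X.K X.K) → X.K} (hω : IsPluri 1 ω) :
    ∃ η : (Fin 2 → Derivation ℂ Y.K Y.K) → Y.K, Transfer C.N ω η := by
  obtain ⟨z, E, hz, hE⟩ := exists_frame X
  obtain ⟨y, F, hy, hF⟩ := exists_frame Y
  obtain ⟨F', hF'⟩ := exists_up (N := C.N) hy
  exact ⟨_, SJ.exists_transfer hω hz hE hy hF hF'⟩

theorem Corr.fibre {Y : FibredSurface} (C : Corr X Y)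
    {ω : (Fin 2 → Derivation ℂ X.K X.K) → X.K}
    {η : (Fin 2 → Derivation ℂ Y.K Y.K) → Y.K} (h : Transfer C.N ω η) (hω : FibreForm X.L 2 ω) :
    FibreForm Y.L 2 η := by
  have := C.ess
  exact transfer_fibre X.trdeg Y.trdeg X.trdeg_base Y.trdeg_base C.base h hω

theorem Corr.global {Y : FibredSurface} (C : Corr X Y)
    {ω : (Fin 2 → Derivation ℂ X.K X.K) → X.K}
    {η : (Fin 2 → Derivation ℂ Y.K Y.K) → Y.K} (h : Transfer C.N ω η) (hω : GlobalForm 2 ω) :
    GlobalForm 2 η := by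
  have := C.ess
  exact transfer_global X.trdeg Y.trdeg h hω

theorem fibre_of_global {ω : (Fin 2 → Derivation ℂ X.K X.K) → X.K} (hω : GlobalForm 2 ω) :
    FibreForm X.L 2 ω :=
  ⟨hω.1, fun P hP => hω.2 P (divisorial_of_trivial X.trdeg_base hP)⟩

theorem transfer_zero {Y : FibredSurface} (C : Corr X Y)
    {ω : (Fin 2 → Derivation ℂ X.K X.K) → X.K}
    {η : (Fin 2 → Derivation ℂ Y.K Y.K) → Y.K} (h : Transfer C.N ω η) (hω : ∀ D, ω D = 0) (D) :
    η D = 0 := by
  obtain ⟨z, E, hz, hE⟩ := exists_frame X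
  obtain ⟨y, F, hy, hF⟩ := exists_frame Y
  obtain ⟨F', hF'⟩ := exists_up (N := C.N) hy
  refine form_zero hy hF (by obtain ⟨ω', h1, h2⟩ := h; exact h2.1) ?_ D
  rw [transfer_coeff h hz hE hy hF hF', hω]
  unfold tcoef
  rw [map_zero, zero_mul, map_zero]

variable {ι : Type} {Y : ι → FibredSurface}

theorem noForms_of_factor (h : IsFactor X Y) (hY : ∀ i, NoForms (Y i).K) : NoForms X.K := by
  obtain ⟨n, i, C, C', a, d, hd, hid⟩ := h
  have hcX : CharZero X.K := charZero_of_injective_algebraMap (algebraMap ℂ X.K).injective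
  intro ω hω D
  choose η hη using fun k => (C k).exists_transfer hω.1
  have hη' : ∀ k, GlobalForm 2 (η k) := fun k => (C k).global (hη k) hω
  choose ω' hω' using fun k => (C' k).exists_transfer (hη' k).1
  have h1 := hid ω (fibre_of_global hω) η ω' hη hω' D
  have h2 : ∀ k, ω' k D = 0 := fun k =>
    transfer_zero (C' k) (hω' k) (fun D' => hY (i k) (η k) (hη' k) D') D
  simp only [h2, mul_zero, Finset.sum_const_zero] at h1
  exact (mul_eq_zero.1 h1).resolve_left (by exact_mod_cast hd)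

theorem degenerate_of_factor (h : IsFactor X Y) (hY : ∀ i, Degenerate (Y i).K) :
    Degenerate X.K := by
  obtain ⟨n, i, C, C', a, d, hd, hid⟩ := h
  intro Ω _ _ _ hΩ σ
  have hcΩ : CharZero Ω := charZero_of_injective_algebraMap (algebraMap ℂ Ω).injective
  obtain ⟨P, hP⟩ : ∃ P : Fin n → ((X.K →ₐ[ℂ] Ω) →₀ ℤ), ∀ k, P k = Phi (C k).N X.K
      (Phi (C' k).N (Y (i k)).K (Finsupp.single σ (1 : ℤ))) := ⟨_, fun k => rfl⟩
  have htop : ∀ j, ∀ c : ((Y j).K →ₐ[ℂ] Ω) →₀ ℤ, c ∈ RatT (Y j).K Ω := by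
    intro j c
    induction c using Finsupp.induction_linear with
    | zero => exact zero_mem _
    | add f g hf hg => exact add_mem hf hg
    | single τ m =>
      have h1 : Finsupp.single τ m = m • Finsupp.single τ (1 : ℤ) := by
        rw [Finsupp.smul_single, smul_eq_mul, mul_one]
      rw [h1]
      exact AddSubgroup.zsmul_mem _ (hY j Ω hΩ τ) m
  have hPT : ∀ k, P k ∈ RatT X.K Ω := by
    intro k
    rw [hP]
    exact Phi_mem (htop (i k) _)
  have hmain : (d • Finsupp.single σ (1 : ℤ) - ∑ k, a k • P k) ∈ Pool.Agent.N162.BC.Rat X.K Ω := by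
    refine rat_of_trace hΩ fun ω hω z E hz hE D => ?_
    choose η hη using fun k => (C k).exists_transfer hω.1
    have hη' : ∀ k, FibreForm (Y (i k)).L 2 (η k) := fun k => (C k).fibre (hη k) hω
    choose ω' hω' using fun k => (C' k).exists_transfer (hη' k).1
    have h1 := hid ω hω η ω' hη hω' E
    have h2 : ∀ k, tr z E ω D (P k) = pullback σ z E (ω' k) D := by
      intro k
      obtain ⟨y, F, hy, hF⟩ := exists_frame (Y (i k))
      rw [hP, tr_Phi (hη k) hy hF hz hE, tr_Phi (hω' k) hz hE hy hF, tr_single, Int.cast_one,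
        one_mul]
    rw [map_sub, map_nsmul, map_sum, tr_single, Int.cast_one, one_mul]
    simp only [map_zsmul, h2]
    have h3 := congrArg σ h1
    rw [map_mul, map_natCast, map_sum] at h3
    unfold pullback
    rw [nsmul_eq_mul, mul_left_comm, h3, Finset.mul_sum, sub_eq_zero]
    refine Finset.sum_congr rfl fun k _ => ?_
    rw [map_mul, map_intCast, zsmul_eq_mul]
    ring
  refine RatT_of_nsmul (Nat.pos_of_ne_zero hd) ?_
  have h1 : d • Finsupp.single σ (1 : ℤ) = (d • Finsupp.single σ (1 : ℤ) - ∑ k, a k • P k) +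
      ∑ k, a k • P k := by abel
  rw [h1]
  exact add_mem (rat_le hmain) (sum_mem fun k _ => AddSubgroup.zsmul_mem _ (hPT k) _)

end

end Pool.Agent.H32.SJ
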