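import Pool.Agent.H32.SJ.Forms

/-!
Images and preimages of zero-cycles, and the traces of canonical forms.
-/

set_option autoImplicit false
set_option linter.overlappingInstances false
set_option linter.unusedSectionVars false

open FF Polynomial Pool.Agent.W603.LV Pool.Agent.W602.GT Pool.Agent.W619.PQ Pool.Agent.N162.BC
open Pool.Agent.Y172 Pool.Agent.N162.PR

namespace Pool.Agent.H32.SJ

section

variable {K Ω : Type} [Field K] [Algebra ℂ K] [Field Ω] [Algebra ℂ Ω]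

/-- the trace of a form on a family of zero-cycles -/
noncomputable def tr (z : Fin 2 → K) (E : Fin 2 → Derivation ℂ K K)
    (ω : (Fin 2 → Derivation ℂ K K) → K) (D : Fin 2 → Derivation ℂ Ω Ω) :
    ((K →ₐ[ℂ] Ω) →₀ ℤ) →+ Ω :=
  Finsupp.liftAddHom fun σ =>
    (AddMonoidHom.mulRight (pullback σ z E ω D)).comp (Int.castAddHom Ω)

theorem tr_apply (z : Fin 2 → K) (E : Fin 2 → Derivation ℂ K K)
    (ω : (Fin 2 → Derivation ℂ K K) → K) (D : Fin 2 → Derivation ℂ Ω Ω)
    (c : (K →ₐ[ℂ] Ω) →₀ ℤ) :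
    tr z E ω D c = ∑ σ ∈ c.support, (c σ : Ω) * pullback σ z E ω D := rfl

theorem tr_single (z : Fin 2 → K) (E : Fin 2 → Derivation ℂ K K)
    (ω : (Fin 2 → Derivation ℂ K K) → K) (D : Fin 2 → Derivation ℂ Ω Ω)
    (σ : K →ₐ[ℂ] Ω) (m : ℤ) :
    tr z E ω D (Finsupp.single σ m) = (m : Ω) * pullback σ z E ω D := by
  unfold tr
  rw [Finsupp.liftAddHom_apply_single]
  rfl

end

section

variable {K N Ω : Type} [Field K] [Algebra ℂ K] [Field N] [Algebra ℂ N] [Algebra K N]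
  [IsScalarTower ℂ K N] [FiniteDimensional K N] [Field Ω] [Algebra ℂ Ω] [IsAlgClosed Ω]

variable (N) in
/-- the preimage of a family of zero-cycles -/
noncomputable def liftC : ((K →ₐ[ℂ] Ω) →₀ ℤ) →+ ((N →ₐ[ℂ] Ω) →₀ ℤ) where
  toFun c := (exists_lift_cycle (K' := N) c).choose
  map_zero' := by
    ext ν
    rw [(exists_lift_cycle (K' := N) (0 : (K →ₐ[ℂ] Ω) →₀ ℤ)).choose_spec.1]
    rfl
  map_add' c c' := by
    ext ν
    rw [(exists_lift_cycle (K' := N) (c + c')).choose_spec.1, Finsupp.add_apply,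
      Finsupp.add_apply, (exists_lift_cycle (K' := N) c).choose_spec.1,
      (exists_lift_cycle (K' := N) c').choose_spec.1]

theorem liftC_apply (c : (K →ₐ[ℂ] Ω) →₀ ℤ) (ν : N →ₐ[ℂ] Ω) :
    liftC N c ν = c (restr K Ω ν) :=
  (exists_lift_cycle (K' := N) c).choose_spec.1 ν

variable (K) in
/-- the image of a family of zero-cycles -/
noncomputable def pushC : ((N →ₐ[ℂ] Ω) →₀ ℤ) →+ ((K →ₐ[ℂ] Ω) →₀ ℤ) :=
  Finsupp.mapDomain.addMonoidHom (restr K Ω)

theorem pushC_apply (c : (N →ₐ[ℂ] Ω) →₀ ℤ) : pushC K c = c.mapDomain (restr K Ω) := rfl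

theorem pullback_restr {ω : (Fin 2 → Derivation ℂ K K) → K}
    {ω' : (Fin 2 → Derivation ℂ N N) → N} (h : IsPullback ω ω')
    {z : Fin 2 → K} (hz : IsTranscendenceBasis ℂ z)
    {E : Fin 2 → Derivation ℂ K K} (hE : ∀ i j, E i (z j) = if i = j then 1 else 0)
    {z' : Fin 2 → N} (hz' : IsTranscendenceBasis ℂ z')
    {E' : Fin 2 → Derivation ℂ N N} (hE' : ∀ i j, E' i (z' j) = if i = j then 1 else 0)
    (D : Fin 2 → Derivation ℂ Ω Ω) (ν : N →ₐ[ℂ] Ω) :
    pullback (restr K Ω ν) z E ω D = pullback ν z' E' ω' D := by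
  have hz2 : IsTranscendenceBasis ℂ (fun j => algebraMap K N (z j)) := hz.algebraMap_comp
  choose E2 hE2 using fun i : Fin 2 => Pool.Agent.W602.GT.exists_der _ hz2
    fun j => if i = j then (1 : N) else 0
  rw [pullback_indep ν hz' hE' hz2 hE2 h.1 D]
  unfold pullback
  rw [h.2 z E E2 hz hE hE2]
  rfl

theorem tr_push {ω : (Fin 2 → Derivation ℂ K K) → K}
    {ω' : (Fin 2 → Derivation ℂ N N) → N} (h : IsPullback ω ω')
    {z : Fin 2 → K} (hz : IsTranscendenceBasis ℂ z)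
    {E : Fin 2 → Derivation ℂ K K} (hE : ∀ i j, E i (z j) = if i = j then 1 else 0)
    {z' : Fin 2 → N} (hz' : IsTranscendenceBasis ℂ z')
    {E' : Fin 2 → Derivation ℂ N N} (hE' : ∀ i j, E' i (z' j) = if i = j then 1 else 0)
    (D : Fin 2 → Derivation ℂ Ω Ω) (c : (N →ₐ[ℂ] Ω) →₀ ℤ) :
    tr z E ω D (pushC K c) = tr z' E' ω' D c := by
  have h1 : (tr z E ω D).comp (pushC K) = tr z' E' ω' D := by
    refine Finsupp.addHom_ext fun ν m => ?_
    rw [AddMonoidHom.comp_apply, pushC_apply, Finsupp.mapDomain_single, tr_single, tr_single,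
      pullback_restr h hz hE hz' hE' D ν]
  rw [← h1]
  rfl

theorem tr_lift {W : (Fin 2 → Derivation ℂ N N) → N} (hW : IsPluri 1 W)
    {ω : (Fin 2 → Derivation ℂ K K) → K} (h : IsTrace W ω)
    {z : Fin 2 → K} (hz : IsTranscendenceBasis ℂ z)
    {E : Fin 2 → Derivation ℂ K K} (hE : ∀ i j, E i (z j) = if i = j then 1 else 0)
    {z' : Fin 2 → N} (hz' : IsTranscendenceBasis ℂ z')
    {E' : Fin 2 → Derivation ℂ N N} (hE' : ∀ i j, E' i (z' j) = if i = j then 1 else 0)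
    (D : Fin 2 → Derivation ℂ Ω Ω) (c : (K →ₐ[ℂ] Ω) →₀ ℤ) :
    tr z' E' W D (liftC N c) = tr z E ω D c := by
  classical
  have hz2 : IsTranscendenceBasis ℂ (fun j => algebraMap K N (z j)) := hz.algebraMap_comp
  choose E2 hE2 using fun i : Fin 2 => Pool.Agent.W602.GT.exists_der _ hz2
    fun j => if i = j then (1 : N) else 0
  have h1 : (tr z' E' W D).comp (liftC N) = tr z E ω D := by
    refine Finsupp.addHom_ext fun σ m => ?_
    obtain ⟨S, hS, -, htr⟩ := exists_fib (K' := N) σ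
    have h2 : liftC N (Finsupp.single σ m) = ∑ ν ∈ S, Finsupp.single ν m := by
      ext ν
      rw [liftC_apply, Finset.sum_apply']
      simp only [Finsupp.single_apply]
      rw [Finset.sum_ite_eq' S ν]
      by_cases hν : ν ∈ S
      · rw [if_pos hν, if_pos ((hS ν).1 hν).symm]
      · rw [if_neg hν, if_neg fun h => hν ((hS ν).2 h.symm)]
    rw [AddMonoidHom.comp_apply, h2, map_sum, tr_single]
    have h3 : ∀ ν ∈ S, tr z' E' W D (Finsupp.single ν m) =
        (m : Ω) * ((Matrix.of fun i j => D i (σ (z j))).det * ν (W E2)) := by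
      intro ν hν
      rw [tr_single, pullback_indep ν hz' hE' hz2 hE2 hW D]
      unfold pullback
      have h4 : ∀ a : K, ν (algebraMap K N a) = σ a := fun a => by
        rw [← (hS ν).1 hν]
        rfl
      simp only [h4]
    rw [Finset.sum_congr rfl h3, ← Finset.mul_sum, ← Finset.mul_sum, htr,
      ← h.2 z E E2 hz hE hE2]
    rfl
  rw [← h1]
  rfl

end

section

variable {K N M Ω : Type} [Field K] [Field N] [Field M] [Algebra ℂ K] [Algebra ℂ N] [Algebra ℂ M]
  [Algebra K N] [Algebra M N] [IsScalarTower ℂ K N] [IsScalarTower ℂ M N]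
  [FiniteDimensional K N] [FiniteDimensional M N] [Field Ω] [Algebra ℂ Ω] [IsAlgClosed Ω]

variable (N M) in
/-- the action of the correspondence `K → N ← M` on families of zero-cycles -/
noncomputable def Phi : ((K →ₐ[ℂ] Ω) →₀ ℤ) →+ ((M →ₐ[ℂ] Ω) →₀ ℤ) :=
  (pushC M).comp (liftC N)

theorem tr_Phi {η : (Fin 2 → Derivation ℂ M M) → M} {ω : (Fin 2 → Derivation ℂ K K) → K}
    (h : Transfer N η ω)
    {z : Fin 2 → K} (hz : IsTranscendenceBasis ℂ z)
    {E : Fin 2 → Derivation ℂ K K} (hE : ∀ i j, E i (z j) = if i = j then 1 else 0)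
    {y : Fin 2 → M} (hy : IsTranscendenceBasis ℂ y)
    {F : Fin 2 → Derivation ℂ M M} (hF : ∀ i j, F i (y j) = if i = j then 1 else 0)
    (D : Fin 2 → Derivation ℂ Ω Ω) (c : (K →ₐ[ℂ] Ω) →₀ ℤ) :
    tr y F η D (Phi N M c) = tr z E ω D c := by
  obtain ⟨W, h1, h2⟩ := h
  have hz2 : IsTranscendenceBasis ℂ (fun j => algebraMap K N (z j)) := hz.algebraMap_comp
  choose E2 hE2 using fun i : Fin 2 => Pool.Agent.W602.GT.exists_der _ hz2
    fun j => if i = j then (1 : N) else 0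
  rw [← tr_lift h1.1 h2 hz hE hz2 hE2 D c, ← tr_push h1 hy hF hz2 hE2 D (liftC N c)]
  rfl

end

end Pool.Agent.H32.SJ
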