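import Pool.Graph.R_pool_sql_team_seeded_63374d34.N162.BC.Defs

/-!
Fibred surfaces, correspondences between their generic fibres, and the action on canonical forms.

The setting is that of `Pool.Graph.R_pool_sql_team_seeded_63374d34.N162.BC.Defs`: a surface is given
by its function field over `ℂ`; `GlobalForm 2 ω`, `FibreForm L 2 ω`, `IsPullback` and `Rat K Ω` are
defined there.
-/

set_option autoImplicit false

open FF Pool.Agent.W602.GT Pool.Agent.N162.BC

namespace Pool.Agent.H32.SJ

section

variable {K N M : Type} [Field K] [Algebra ℂ K] [Field N] [Algebra ℂ N] [Field M] [Algebra ℂ M]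
  [Algebra K N] [Algebra M N]

/-- The canonical form `ω` on the surface with the function field `K` is the trace of the canonical
form `ω'` on a surface with the function field `N`, a finite extension of `K`. -/
def IsTrace (ω' : (Fin 2 → Derivation ℂ N N) → N) (ω : (Fin 2 → Derivation ℂ K K) → K) : Prop :=
  IsPluri 1 ω ∧
    ∀ (z : Fin 2 → K) (E : Fin 2 → Derivation ℂ K K) (E' : Fin 2 → Derivation ℂ N N),
      IsTranscendenceBasis ℂ z → (∀ i j, E i (z j) = if i = j then 1 else 0) →
      (∀ i j, E' i (algebraMap K N (z j)) = if i = j then 1 else 0) →
      ω E = Algebra.trace K N (ω' E')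

variable (N) in
/-- The transfer of canonical forms by the correspondence `K → N ← M`: the form `η` on the surface
with the function field `M` is the trace of the pullback to `N` of the form `ω` on the surface with the
function field `K`. -/
def Transfer (ω : (Fin 2 → Derivation ℂ K K) → K) (η : (Fin 2 → Derivation ℂ M M) → M) : Prop :=
  ∃ ω' : (Fin 2 → Derivation ℂ N N) → N, IsPullback ω ω' ∧ IsTrace ω' η

/-- The geometric genus of the smooth projective surfaces with the function field `K` is zero. -/
def NoForms (K : Type) [Field K] [Algebra ℂ K] : Prop :=
  ∀ ω : (Fin 2 → Derivation ℂ K K) → K, GlobalForm 2 ω → ∀ D, ω D = 0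

/-- A multiple of the generic point of the surface with the function field `K` is rationally
equivalent to a zero-cycle supported on curves `D` of the surface: `σ` is a generic point over an
algebraically closed field `Ω` of transcendence degree two, for instance the algebraic closure of `K`.
By the theorem of Bloch and Srinivas this is equivalent to the finite-dimensionality of the group of
zero-cycles of the smooth projective surfaces with the function field `K`. -/
def Degenerate (K : Type) [Field K] [Algebra ℂ K] : Prop :=
  ∀ (Ω : Type) [Field Ω] [Algebra ℂ Ω] [IsAlgClosed Ω], Algebra.trdeg ℂ Ω = 2 →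
    ∀ σ : K →ₐ[ℂ] Ω, ∃ n : ℕ, 0 < n ∧ n • Finsupp.single σ (1 : ℤ) ∈ Rat K Ω

/-- The surfaces with the function field `K` are birationally ruled: `K` is the field of rational
functions in one variable over a field. -/
def IsRuled (K : Type) [Field K] [Algebra ℂ K] : Prop :=
  ∃ (F : Type) (_ : Field F) (_ : Algebra ℂ F), Nonempty (K ≃ₐ[ℂ] RatFunc F)

end

/-- A surface fibred over a curve, with connected fibres, given by function fields: `K` is the function
field of the surface, and the subfield `L`, which is algebraically closed in `K`, is the function field
of the curve. So `K` over `L` is the function field of the generic fibre. -/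
structure FibredSurface where
  K : Type
  [field : Field K]
  [alg : Algebra ℂ K]
  [fg : Algebra.EssFiniteType ℂ K]
  trdeg : Algebra.trdeg ℂ K = 2
  L : IntermediateField ℂ K
  trdeg_base : Algebra.trdeg ℂ L = 1
  closed : ∀ a : K, IsAlgebraic L a → a ∈ L

attribute [instance] FibredSurface.field FibredSurface.alg FibredSurface.fg

/-- An irreducible correspondence between the fibred surfaces `X` and `Y`: a surface with the function
field `N` with generically finite dominant maps to `X` and to `Y`, such that both fibrations give the
same fibration on it; that is, in `N`, the fields `X.L` and `Y.L` have the same algebraic closure. -/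
structure Corr (X Y : FibredSurface) where
  N : Type
  [field : Field N]
  [alg : Algebra ℂ N]
  [algX : Algebra X.K N]
  [algY : Algebra Y.K N]
  [towerX : IsScalarTower ℂ X.K N]
  [towerY : IsScalarTower ℂ Y.K N]
  [finiteX : FiniteDimensional X.K N]
  [finiteY : FiniteDimensional Y.K N]
  base : ∀ l ∈ X.L, IsAlgebraic Y.L (algebraMap X.K N l)
  base' : ∀ l ∈ Y.L, IsAlgebraic X.L (algebraMap Y.K N l)

attribute [instance] Corr.field Corr.alg Corr.algX Corr.algY Corr.towerX Corr.towerY Corr.finiteX
  Corr.finiteY

/-- The Jacobian of the generic fibre of the fibred surface `X` is, up to isogeny, a direct factor of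
a product of powers of the Jacobians of the generic fibres of the fibred surfaces `Y i` (if the bases
of the `Y i` are coverings of the base of `X`: of a product of powers of the Weil restrictions of
these Jacobians): a multiple `d ≠ 0` of the identity of the space of the forms which are regular on the
generic fibre of `X` is the sum of compositions of correspondences `X → Y i → X`, with integral
coefficients. -/
def IsFactor (X : FibredSurface) {ι : Type} (Y : ι → FibredSurface) : Prop :=
  ∃ (n : ℕ) (i : Fin n → ι) (C : ∀ k, Corr X (Y (i k))) (C' : ∀ k, Corr (Y (i k)) X)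
    (a : Fin n → ℤ) (d : ℕ), d ≠ 0 ∧
    ∀ ω : (Fin 2 → Derivation ℂ X.K X.K) → X.K, FibreForm X.L 2 ω →
    ∀ (η : ∀ k, (Fin 2 → Derivation ℂ (Y (i k)).K (Y (i k)).K) → (Y (i k)).K)
      (ω' : Fin n → (Fin 2 → Derivation ℂ X.K X.K) → X.K),
      (∀ k, Transfer (C k).N ω (η k)) → (∀ k, Transfer (C' k).N (η k) (ω' k)) →
      ∀ D, (d : X.K) * ω D = ∑ k, (a k : X.K) * ω' k D

end Pool.Agent.H32.SJ
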