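import Pool.Graph.R_pool_sql_team_seeded_63374d34.N162.PR.Lift
import Pool.Agent.H32.SJ.Defs

/-!
Pullbacks and traces of canonical forms on surfaces.
-/

set_option autoImplicit false
set_option linter.overlappingInstances false
set_option linter.unusedSectionVars false

open FF Polynomial Pool.Agent.W603.LV Pool.Agent.W602.GT Pool.Agent.W619.PQ Pool.Agent.N162.BC
open Pool.Agent.Y172 Pool.Agent.N162.PR

namespace Pool.Agent.H32.SJ

section

variable {K N : Type} [Field K] [Field N] [Algebra ℂ K] [Algebra ℂ N] [Algebra K N]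
  [IsScalarTower ℂ K N]

/-- derivations which are lifts on coordinates are lifts -/
theorem lift_all {n : ℕ} {z : Fin n → K} (hz : IsTranscendenceBasis ℂ z)
    {E : Derivation ℂ K K} {E' : Derivation ℂ N N}
    (h : ∀ j, E' (algebraMap K N (z j)) = algebraMap K N (E (z j))) (f : K) :
    E' (algebraMap K N f) = algebraMap K N (E f) := by
  refine sub_eq_zero.1 (hom_der_ext (IsScalarTower.toAlgHom ℂ K N) hz
    (fun a => E' (algebraMap K N a) - algebraMap K N (E a)) (fun a b => ?_) (fun c a => ?_)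
    (fun a b => ?_) (fun i => ?_) f)
  · rw [map_add, map_add, map_add, map_add]
    ring
  · have h1 : algebraMap K N (c • a) = c • algebraMap K N a := by
      rw [Algebra.smul_def, Algebra.smul_def, map_mul, ← IsScalarTower.algebraMap_apply]
    have h2 : algebraMap K N (E (c • a)) = c • algebraMap K N (E a) := by
      rw [E.map_smul, Algebra.smul_def, Algebra.smul_def, map_mul,
        ← IsScalarTower.algebraMap_apply]
    rw [h1, h2, E'.map_smul, smul_sub]
  · rw [map_mul, Derivation.leibniz, Derivation.leibniz, smul_eq_mul, smul_eq_mul, smul_eq_mul,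
      smul_eq_mul, map_add, map_mul, map_mul]
    change _ = algebraMap K N a * _ + algebraMap K N b * _
    ring
  · rw [h, sub_self]

theorem lift_all' {n : ℕ} {z : Fin n → K} (hz : IsTranscendenceBasis ℂ z)
    {E : Fin n → Derivation ℂ K K} {E' : Fin n → Derivation ℂ N N}
    (hE : ∀ i j, E i (z j) = if i = j then 1 else 0)
    (hE' : ∀ i j, E' i (algebraMap K N (z j)) = if i = j then 1 else 0) (i : Fin n) (f : K) :
    E' i (algebraMap K N f) = algebraMap K N (E i f) := by
  refine lift_all hz (fun j => ?_) f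
  rw [hE', hE, apply_ite (algebraMap K N), map_one, map_zero]

/-- two canonical forms with the same coefficient are equal -/
theorem form_ext {n : ℕ} {z : Fin n → K} (hz : IsTranscendenceBasis ℂ z)
    {E : Fin n → Derivation ℂ K K} (hE : ∀ i j, E i (z j) = if i = j then 1 else 0)
    {ω ω' : (Fin n → Derivation ℂ K K) → K} (hω : IsPluri 1 ω) (hω' : IsPluri 1 ω')
    (h : ω E = ω' E) (D : Fin n → Derivation ℂ K K) : ω D = ω' D := by
  rw [pluri_eq hz hE hω D, pluri_eq hz hE hω' D, h]

theorem form_zero {n : ℕ} {z : Fin n → K} (hz : IsTranscendenceBasis ℂ z)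
    {E : Fin n → Derivation ℂ K K} (hE : ∀ i j, E i (z j) = if i = j then 1 else 0)
    {ω : (Fin n → Derivation ℂ K K) → K} (hω : IsPluri 1 ω)
    (h : ω E = 0) (D : Fin n → Derivation ℂ K K) : ω D = 0 := by
  rw [pluri_eq hz hE hω D, h]
  unfold stdForm
  rw [zero_mul]

variable [FiniteDimensional K N]

/-- the pullback of a form -/
theorem exists_pullback {ω : (Fin 2 → Derivation ℂ K K) → K} (hω : IsPluri 1 ω)
    {z : Fin 2 → K} (hz : IsTranscendenceBasis ℂ z)
    {E : Fin 2 → Derivation ℂ K K} (hE : ∀ i j, E i (z j) = if i = j then 1 else 0) :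
    IsPullback ω (stdForm (fun j => algebraMap K N (z j)) (algebraMap K N (ω E))) := by
  refine ⟨stdForm_pluri _ _, fun y F F' hy hF hF' => ?_⟩
  have h1 := lift_all' hy hF hF'
  rw [pluri_eq hz hE hω F]
  unfold stdForm
  rw [map_mul]
  congr 1
  rw [RingHom.map_det]
  congr 1
  ext i j
  rw [Matrix.of_apply, RingHom.mapMatrix_apply, Matrix.map_apply, Matrix.of_apply]
  exact h1 i (z j)

theorem pullback_coeff {ω : (Fin 2 → Derivation ℂ K K) → K}
    {ω' : (Fin 2 → Derivation ℂ N N) → N} (h : IsPullback ω ω')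
    {z : Fin 2 → K} (hz : IsTranscendenceBasis ℂ z)
    {E : Fin 2 → Derivation ℂ K K} (hE : ∀ i j, E i (z j) = if i = j then 1 else 0)
    (F : Fin 2 → Derivation ℂ N N) :
    ω' F = algebraMap K N (ω E) *
      (Matrix.of fun i j => F i (algebraMap K N (z j)) : Matrix (Fin 2) (Fin 2) N).det := by
  have hz' : IsTranscendenceBasis ℂ (fun j => algebraMap K N (z j)) := hz.algebraMap_comp
  choose E' hE' using fun i : Fin 2 => Pool.Agent.W602.GT.exists_der _ hz'
    fun j => if i = j then (1 : N) else 0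
  rw [pluri_eq hz' hE' h.1 F, h.2 z E E' hz hE hE']
  rfl

/-- the trace of a form -/
theorem exists_trace
    {W : (Fin 2 → Derivation ℂ N N) → N} (hW : IsPluri 1 W)
    {z : Fin 2 → K} (hz : IsTranscendenceBasis ℂ z)
    {E : Fin 2 → Derivation ℂ K K} (hE : ∀ i j, E i (z j) = if i = j then 1 else 0)
    {E' : Fin 2 → Derivation ℂ N N}
    (hE' : ∀ i j, E' i (algebraMap K N (z j)) = if i = j then 1 else 0) :
    IsTrace W (stdForm z (Algebra.trace K N (W E'))) := by
  refine ⟨stdForm_pluri _ _, fun y F F' hy hF hF' => ?_⟩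
  have h1 := tr_coord hz hE (lift_all' hz hE hE') hW hy hF (lift_all' hy hF hF') F
  rw [h1]
  have h2 : (Matrix.of fun i j => F i (y j) : Matrix (Fin 2) (Fin 2) K) = 1 := by
    ext i j
    rw [Matrix.of_apply, hF, Matrix.one_apply]
  rw [h2, Matrix.det_one, one_mul]

end

section

variable {K N M : Type} [Field K] [Field N] [Field M] [Algebra ℂ K] [Algebra ℂ N] [Algebra ℂ M]
  [Algebra K N] [Algebra M N] [IsScalarTower ℂ K N] [IsScalarTower ℂ M N]
  [FiniteDimensional K N] [FiniteDimensional M N]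

/-- the coefficient of the transfer of a form -/
noncomputable def tcoef (M : Type) {K N : Type} [Field K] [Field N] [Field M] [Algebra ℂ K]
    [Algebra ℂ N] [Algebra K N] [Algebra M N]
    (z : Fin 2 → K) (F' : Fin 2 → Derivation ℂ N N) (g : K) : M :=
  Algebra.trace M N (algebraMap K N g *
    (Matrix.of fun i j => F' i (algebraMap K N (z j)) : Matrix (Fin 2) (Fin 2) N).det)

theorem tcoef_add (z : Fin 2 → K) (F' : Fin 2 → Derivation ℂ N N) (g g' : K) :
    tcoef M z F' (g + g') = tcoef M z F' g + tcoef M z F' g' := by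
  unfold tcoef
  rw [map_add, add_mul, map_add]

theorem tcoef_smul (z : Fin 2 → K) (F' : Fin 2 → Derivation ℂ N N) (c : ℂ) (g : K) :
    tcoef M z F' (algebraMap ℂ K c * g) = algebraMap ℂ M c * tcoef M z F' g := by
  unfold tcoef
  have h1 : algebraMap K N (algebraMap ℂ K c * g) = algebraMap M N (algebraMap ℂ M c) *
      algebraMap K N g := by
    rw [map_mul, ← IsScalarTower.algebraMap_apply, ← IsScalarTower.algebraMap_apply]
  rw [h1, mul_assoc, ← Algebra.smul_def, map_smul, smul_eq_mul]

theorem transfer_coeff {ω : (Fin 2 → Derivation ℂ K K) → K}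
    {η : (Fin 2 → Derivation ℂ M M) → M} (h : Transfer N ω η)
    {z : Fin 2 → K} (hz : IsTranscendenceBasis ℂ z)
    {E : Fin 2 → Derivation ℂ K K} (hE : ∀ i j, E i (z j) = if i = j then 1 else 0)
    {y : Fin 2 → M} (hy : IsTranscendenceBasis ℂ y)
    {F : Fin 2 → Derivation ℂ M M} (hF : ∀ i j, F i (y j) = if i = j then 1 else 0)
    {F' : Fin 2 → Derivation ℂ N N}
    (hF' : ∀ i j, F' i (algebraMap M N (y j)) = if i = j then 1 else 0) :
    η F = tcoef M z F' (ω E) := by
  obtain ⟨ω', h1, h2⟩ := h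
  rw [h2.2 y F F' hy hF hF', pullback_coeff h1 hz hE F']
  rfl

theorem exists_transfer {ω : (Fin 2 → Derivation ℂ K K) → K}
    (hω : IsPluri 1 ω)
    {z : Fin 2 → K} (hz : IsTranscendenceBasis ℂ z)
    {E : Fin 2 → Derivation ℂ K K} (hE : ∀ i j, E i (z j) = if i = j then 1 else 0)
    {y : Fin 2 → M} (hy : IsTranscendenceBasis ℂ y)
    {F : Fin 2 → Derivation ℂ M M} (hF : ∀ i j, F i (y j) = if i = j then 1 else 0)
    {F' : Fin 2 → Derivation ℂ N N}
    (hF' : ∀ i j, F' i (algebraMap M N (y j)) = if i = j then 1 else 0) :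
    Transfer N ω (stdForm y (tcoef M z F' (ω E))) := by
  refine ⟨_, exists_pullback hω hz hE, ?_⟩
  have h1 := exists_trace (stdForm_pluri (fun j => algebraMap K N (z j))
    (algebraMap K N (ω E))) hy hF hF'
  exact h1

end

section

variable {K N : Type} [Field K] [Field N] [Algebra ℂ K] [Algebra ℂ N] [Algebra K N]
  [IsScalarTower ℂ K N] [FiniteDimensional K N] [Algebra.EssFiniteType ℂ K]
  [Algebra.EssFiniteType ℂ N]

/-- pullbacks of forms which are regular at a divisorial place are regular -/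
theorem pull_reg_at (hn : Algebra.trdeg ℂ K = 2) {ω : (Fin 2 → Derivation ℂ K K) → K}
    {ω' : (Fin 2 → Derivation ℂ N N) → N} (h : IsPullback ω ω')
    {P : Place ℂ K} (hP : Divisorial 2 P) (hreg : RegAt P ω) {Q : Place ℂ N} {e : ℕ}
    (hQ : Over Q P e) : RegAt Q ω' := by
  intro D hD
  obtain ⟨y, E, i0, hl⟩ := exists_loc (n := 2) (by rw [hn]; norm_num) hP
  rw [pullback_coeff h hl.bas hl.dual D]
  have h1 : Ge P 0 (ω E) := by
    have h2 := hreg E hl.pres
    exact h2
  have h2 := pull_reg hQ hl hD (m := 1) h1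
  rw [pow_one] at h2
  have he : (1 : ℤ) ≤ e := by exact_mod_cast hQ.1
  have h3 := h2.mono (show (0 : ℤ) ≤ _ by push_cast; omega)
  rw [mul_comm]
  exact h3

/-- traces of forms which are regular above a divisorial place are regular -/
theorem tr_reg_at (hn : Algebra.trdeg ℂ K = 2) {W : (Fin 2 → Derivation ℂ N N) → N}
    {ω : (Fin 2 → Derivation ℂ K K) → K} (hW : IsPluri 1 W) (h : IsTrace W ω)
    {P : Place ℂ K} (hP : Divisorial 2 P)
    (hreg : ∀ (Q : Place ℂ N) (e : ℕ), Over Q P e → RegAt Q W) : RegAt P ω := by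
  intro G hG
  have hnL : Algebra.trdeg ℂ N = (2 : ℕ) := trdeg_up (K := K) (by rw [hn]; norm_num)
  obtain ⟨yP, EP, i0, hl⟩ := exists_loc (n := 2) (by rw [hn]; norm_num) hP
  choose EP' hEP' using fun i => Pool.Agent.Y172.exists_lift (L := N) (n := 2)
    (by rw [hn]; norm_num) (EP i)
  have hd := lift_dual hl.dual hEP'
  rw [pluri_eq hl.bas hl.dual h.1 G, h.2 yP EP EP' hl.bas hl.dual hd]
  unfold stdForm
  refine P.reg_mul ?_ ?_
  · refine Pool.Agent.Y692.NT.trace_reg P (W EP') fun Q e hQ => ?_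
    have hQd : Divisorial 2 Q := divisorial_up hQ hP
    have h1 := down_ge hnL hQ hQd hl hEP' hW (c := 0) (fun G' hG' => by
      rcases hreg Q e hQ G' hG' with h | h
      · exact Or.inl h
      · exact Or.inr (by exact_mod_cast h))
    rcases h1 with h1 | h1
    · exact Or.inl h1
    · right
      have h2 : ((1 - e : ℤ) : ℝ) ≤ (Q.ord (W EP') : ℝ) := by
        push_cast
        push_cast at h1
        linarith
      exact_mod_cast h2
  · have h9 : Ge P 0 (Matrix.of fun i j => G i (yP j) : Matrix (Fin 2) (Fin 2) K).det :=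
      Pool.Agent.W619.PQ.ge_det P _ fun a b => hG a _ (hl.reg b)
    exact h9

/-- places which are trivial on a subfield of transcendence degree one are divisorial -/
theorem divisorial_of_trivial {L : IntermediateField ℂ K} (hL : Algebra.trdeg ℂ L = 1)
    {P : Place ℂ K} (hP : ∀ l ∈ L, l ≠ 0 → P.ord l = 0) : Divisorial 2 P := by
  obtain ⟨t, ht⟩ := exists_tb (k := ℂ) (L := L) (m := 1) (by rw [hL]; norm_num)
  refine ⟨fun i => (t i : K), fun F hF => ?_⟩
  have h1 : MvPolynomial.aeval (fun i => (t i : K)) F = ((MvPolynomial.aeval t F : L) : K) := by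
    have h2 := MvPolynomial.aeval_algebraMap_apply K t F
    exact h2
  have h3 : MvPolynomial.aeval t F ≠ 0 := by
    intro h0
    exact hF ((injective_iff_map_eq_zero _).1 ht.1 F h0)
  have h4 : ((MvPolynomial.aeval t F : L) : K) ≠ 0 := by
    intro h0
    exact h3 (Subtype.ext h0)
  rw [h1]
  exact ⟨h4, hP _ (MvPolynomial.aeval t F : L).2 h4⟩

end

section

variable {K N M : Type} [Field K] [Field N] [Field M] [Algebra ℂ K] [Algebra ℂ N] [Algebra ℂ M]
  [Algebra K N] [Algebra M N] [IsScalarTower ℂ K N] [IsScalarTower ℂ M N]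
  [FiniteDimensional K N] [FiniteDimensional M N] [Algebra.EssFiniteType ℂ K]
  [Algebra.EssFiniteType ℂ N] [Algebra.EssFiniteType ℂ M]

/-- transfers of global forms are global -/
theorem transfer_global (hK : Algebra.trdeg ℂ K = 2) (hM : Algebra.trdeg ℂ M = 2)
    {ω : (Fin 2 → Derivation ℂ K K) → K}
    {η : (Fin 2 → Derivation ℂ M M) → M} (h : Transfer N ω η) (hω : GlobalForm 2 ω) :
    GlobalForm 2 η := by
  obtain ⟨ω', h1, h2⟩ := h
  refine ⟨h2.1, fun P hP => tr_reg_at hM h1.1 h2 hP fun Q e hQ => ?_⟩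
  obtain ⟨e', P', hP'⟩ := Pool.Agent.W73.PG.PULL.exists_over' (K := K) Q
  have hQd : Divisorial 2 Q := divisorial_up hQ hP
  have hP'd : Divisorial 2 P' := divisorial_down hP' hQd
  exact pull_reg_at hK h1 hP'd (hω.2 P' hP'd) hP'

/-- transfers of forms which are regular on the generic fibre are regular on the generic fibre -/
theorem transfer_fibre (hK : Algebra.trdeg ℂ K = 2) (hM : Algebra.trdeg ℂ M = 2)
    {L : IntermediateField ℂ K} {B : IntermediateField ℂ M} (hL : Algebra.trdeg ℂ L = 1)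
    (hB : Algebra.trdeg ℂ B = 1)
    (hLB : ∀ l ∈ L, IsAlgebraic B (algebraMap K N l))
    {ω : (Fin 2 → Derivation ℂ K K) → K}
    {η : (Fin 2 → Derivation ℂ M M) → M} (h : Transfer N ω η) (hω : FibreForm L 2 ω) :
    FibreForm B 2 η := by
  obtain ⟨ω', h1, h2⟩ := h
  refine ⟨h2.1, fun P hP => tr_reg_at hM h1.1 h2 (divisorial_of_trivial hB hP) fun Q e hQ => ?_⟩
  obtain ⟨e', P', hP'⟩ := Pool.Agent.W73.PG.PULL.exists_over' (K := K) Q
  have hreg : ∀ b : B, Q.Reg (algebraMap B N b) := by
    intro b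
    have h3 : algebraMap B N b = algebraMap M N (b : M) := rfl
    rw [h3]
    by_cases hb : (b : M) = 0
    · left
      rw [hb, map_zero]
    · right
      rw [hQ.2, hP _ b.2 hb, mul_zero]
  have htriv : ∀ l ∈ L, l ≠ 0 → P'.ord l = 0 := by
    intro l hl hl0
    have hl1 : algebraMap K N l ≠ 0 := fun h0 => hl0 ((map_eq_zero _).1 h0)
    have hint := (hLB l hl).isIntegral
    have h4 := (Q.reg_iff hl1).1 (Q.reg_of_isIntegral (A := B) hreg hint)
    have h5 := (Q.reg_iff (inv_ne_zero hl1)).1
      (Q.reg_of_isIntegral (A := B) hreg (hLB l hl).inv.isIntegral)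
    rw [Q.ord_inv] at h5
    have h3 := hP'.2 l
    have h6 : Q.ord (algebraMap K N l) = 0 := by omega
    rw [h6] at h3
    have h7 : (e' : ℤ) ≠ 0 := by exact_mod_cast hP'.1.ne'
    exact (mul_eq_zero.1 h3.symm).resolve_left h7
  exact pull_reg_at hK h1 (divisorial_of_trivial hL htriv) (hω.2 P' htriv) hP'

end

end Pool.Agent.H32.SJ
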