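import Pool.Agent.H32.SJ.Cyc
import Pool.Graph.R_seed8.W603.PV.Ext
import Pool.Graph.R_seed8.W603.LV.Ex
import Pool.Graph.R_seed8.Helper386.D5V.Helper399_FF4

/-!
Preimages of families of zero-cycles which are rationally equivalent to zero.
-/

set_option autoImplicit false
set_option linter.overlappingInstances false
set_option linter.unusedSectionVars false

open FF Polynomial Pool.Agent.W603.LV Pool.Agent.W602.GT Pool.Agent.W619.PQ Pool.Agent.N162.BC
open Pool.Agent.Y172 Pool.Agent.N162.PR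

namespace Pool.Agent.H32.SJ

/-- the places over a place, algebraically closed field of constants -/
theorem exists_over_sum {k F F' : Type} [Field k] [CharZero k] [IsAlgClosed k] [Field F]
    [Field F'] [Algebra k F] [Algebra k F'] [Algebra F F'] [IsScalarTower k F F'] [IsFF k F]
    [IsFF k F'] [FiniteDimensional F F'] (v : Place k F) :
    ∃ (S : Finset (Place k F')) (e : Place k F' → ℕ), (∀ w e', Over w v e' → w ∈ S) ∧
      (∀ w ∈ S, Over w v (e w)) ∧ ∑ w ∈ S, e w = Module.finrank F F' := by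
  classical
  obtain ⟨S, T, hS, hT, hsum⟩ := exists_places_over (K' := F') v
  have h1 : ∀ w ∈ S, Over w v (T w) := by
    intro w hw
    obtain ⟨e, h, h2, -⟩ := hT w hw
    letI : Algebra v.RF w.RF := h.resMap.toRingHom.toAlgebra
    have hst : IsScalarTower k v.RF w.RF := IsScalarTower.of_algebraMap_eq fun z =>
      (h.resMap.commutes z).symm
    have h3 := Module.finrank_mul_finrank k v.RF w.RF
    have h4 : Module.finrank k v.RF = 1 := deg_one v
    have h5 : Module.finrank k w.RF = 1 := deg_one w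
    rw [h4, h5, one_mul] at h3
    rw [h3, mul_one] at h2
    rw [h2]
    exact h
  exact ⟨S, T, hS, h1, hsum⟩

section

variable {K N Ω : Type} [Field K] [Algebra ℂ K] [Field N] [Algebra ℂ N] [Algebra K N]
  [IsScalarTower ℂ K N] [FiniteDimensional K N] [Field Ω] [Algebra ℂ Ω] [IsAlgClosed Ω]

/-- a point over a given point is the centre of exactly one of the conjugate maps -/
theorem centre_count {F' : Type} [Field F'] [Algebra Ω F'] [IsFF Ω F'] (σ : K →ₐ[ℂ] Ω)
    {J : Type} [Fintype J] (φ : J → (N →+* F')) (τ : K →+* F')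
    (hφK : ∀ j a, φ j (algebraMap K N a) = τ a)
    (hτ : ∀ z : ℂ, τ (algebraMap ℂ K z) = algebraMap Ω F' (algebraMap ℂ Ω z))
    (htr : ∀ a : N, ∑ j, φ j a = τ (Algebra.trace K N a)) (w : Place Ω F')
    (hw : CentredAt τ w σ) (ν : N →ₐ[ℂ] Ω) (hν : restr K Ω ν = σ)
    [DecidablePred fun j => CentredAt (φ j) w ν] :
    (Finset.univ.filter fun j => CentredAt (φ j) w ν).card = 1 := by
  classical
  have hcΩ : CharZero Ω := charZero_of_injective_algebraMap (algebraMap ℂ Ω).injective
  have hex : ∀ j, ∃ ν' : N →ₐ[ℂ] Ω, restr K Ω ν' = σ ∧ CentredAt (φ j) w ν' := by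
    intro j
    refine lift_centre (K := K) (fun z => ?_) ?_
    · rw [IsScalarTower.algebraMap_apply ℂ K N, hφK, hτ]
    · intro a
      have h1 : ((φ j).comp (algebraMap K N)) a = τ a := hφK j a
      rw [h1]
      exact hw a
  choose c hc1 hc2 using hex
  obtain ⟨S, hS, -, hStr⟩ := exists_fib (K' := N) σ
  have hkey : ∀ a : N, ∑ j, c j a = ∑ ν' ∈ S, ν' a := by
    intro a
    rw [hStr]
    have h1 : Ge w 1 (∑ j, (φ j a - algebraMap Ω F' (c j a))) :=
      Ge.sum _ _ fun j _ => (centred_iff.1 (hc2 j)) a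
    have h2 := (centred_iff.1 hw) (Algebra.trace K N a)
    rw [Finset.sum_sub_distrib, htr, ← map_sum] at h1
    have h3 := h2.sub h1
    rw [sub_sub_sub_cancel_left, ← map_sub] at h3
    exact sub_eq_zero.1 (not_ge_const h3)
  have hli := linearIndependent_iff_injective_finsuppLinearCombination.1
    (linearIndependent_toLinearMap ℂ N Ω)
  have h1 : (∑ j, Finsupp.single (c j) (1 : Ω)) = ∑ ν' ∈ S, Finsupp.single ν' (1 : Ω) := by
    apply hli
    rw [map_sum, map_sum]
    simp only [Finsupp.linearCombination_single, one_smul]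
    ext a
    rw [LinearMap.sum_apply, LinearMap.sum_apply]
    exact hkey a
  have h2 := congrArg (fun g : (N →ₐ[ℂ] Ω) →₀ Ω => g ν) h1
  simp only [Finsupp.finsetSum_apply, Finsupp.single_apply] at h2
  rw [Finset.sum_ite_eq' S ν, if_pos ((hS ν).2 hν), Finset.sum_ite, Finset.sum_const_zero,
    add_zero, Finset.sum_const, nsmul_eq_mul, mul_one] at h2
  have h3 : (Finset.univ.filter fun j => c j = ν).card = 1 := by exact_mod_cast h2
  rw [← h3]
  congr 1
  ext j
  rw [Finset.mem_filter, Finset.mem_filter]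
  refine and_congr_right fun _ => ⟨fun h => centre_unique (hc2 j) h, fun h => ?_⟩
  rw [← h]
  exact hc2 j

variable (K Ω) in
/-- the families of zero-cycles a multiple of which is rationally equivalent to zero -/
noncomputable def RatT : AddSubgroup ((K →ₐ[ℂ] Ω) →₀ ℤ) where
  carrier := {c | ∃ n : ℕ, 0 < n ∧ n • c ∈ Rat K Ω}
  zero_mem' := ⟨1, one_pos, by rw [smul_zero]; exact zero_mem _⟩
  add_mem' := by
    rintro a b ⟨n, hn, ha⟩ ⟨m, hm, hb⟩
    refine ⟨n * m, Nat.mul_pos hn hm, ?_⟩
    rw [smul_add]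
    refine add_mem ?_ ?_
    · rw [mul_comm, mul_smul]
      exact AddSubgroup.nsmul_mem _ ha m
    · rw [mul_smul]
      exact AddSubgroup.nsmul_mem _ hb n
  neg_mem' := by
    rintro a ⟨n, hn, ha⟩
    refine ⟨n, hn, ?_⟩
    rw [smul_neg]
    exact neg_mem ha

theorem mem_RatT {c : (K →ₐ[ℂ] Ω) →₀ ℤ} :
    c ∈ RatT K Ω ↔ ∃ n : ℕ, 0 < n ∧ n • c ∈ Rat K Ω := Iff.rfl

theorem rat_le : Rat K Ω ≤ RatT K Ω := fun c hc => ⟨1, one_pos, by rw [one_smul]; exact hc⟩

theorem RatT_of_nsmul {c : (K →ₐ[ℂ] Ω) →₀ ℤ} {n : ℕ} (hn : 0 < n) (h : n • c ∈ RatT K Ω) :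
    c ∈ RatT K Ω := by
  obtain ⟨m, hm, h1⟩ := h
  exact ⟨m * n, Nat.mul_pos hm hn, by rw [mul_smul]; exact h1⟩

theorem push_mem {c : (N →ₐ[ℂ] Ω) →₀ ℤ} (hc : c ∈ RatT N Ω) : pushC K c ∈ RatT K Ω := by
  obtain ⟨n, hn, h⟩ := hc
  refine ⟨n, hn, ?_⟩
  rw [← map_nsmul]
  exact rat_push h

/-- **Preimages of families which are rationally equivalent to zero.** -/
theorem lift_gen {M : Type} [Field M] [Algebra Ω M] [IsFF Ω M] (τ : K →+* M) (f : M)
    (hτ : ∀ z : ℂ, τ (algebraMap ℂ K z) = algebraMap Ω M (algebraMap ℂ Ω z)) (hf0 : f ≠ 0)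
    (g : (K →ₐ[ℂ] Ω) →₀ ℤ)
    (hg : ∀ σ : K →ₐ[ℂ] Ω, g σ = ∑ᶠ v ∈ {v : Place Ω M | CentredAt τ v σ}, v.ord f) :
    liftC N g ∈ RatT N Ω := by
  classical
  have hcΩ : CharZero Ω := charZero_of_injective_algebraMap (algebraMap ℂ Ω).injective
  have hcK : CharZero K := charZero_of_injective_algebraMap (algebraMap ℂ K).injective
  have hcM : CharZero M := charZero_of_injective_algebraMap (algebraMap Ω M).injective
  obtain ⟨A, hA⟩ : ∃ A : Type, A = AlgebraicClosure M := ⟨_, rfl⟩
  subst hA
  let i1 : Algebra K (AlgebraicClosure M) := ((algebraMap M (AlgebraicClosure M)).comp τ).toAlgebra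
  have hi1 : ∀ a : K, algebraMap K (AlgebraicClosure M) a = algebraMap M (AlgebraicClosure M) (τ a) :=
    fun a => rfl
  let b := Module.finBasis K N
  let S : Set (AlgebraicClosure M) := Set.range
    fun p : (N →ₐ[K] AlgebraicClosure M) × Fin (Module.finrank K N) => p.1 (b p.2)
  have hSfin : Finite S := Set.finite_range _
  let M' : IntermediateField M (AlgebraicClosure M) := IntermediateField.adjoin M S
  have hM'fin : FiniteDimensional M M' := IntermediateField.finiteDimensional_adjoin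
    (fun x _ => (AlgebraicClosure.isAlgebraic M).isAlgebraic x |>.isIntegral)
  have hM'FF : IsFF Ω M' := Pool.Agent.W603.PV.isFF_of_finite (F := M)
  have hmem : ∀ (φ : N →ₐ[K] AlgebraicClosure M) (a : N), φ a ∈ M' := by
    intro φ a
    rw [← b.sum_repr a, map_sum]
    refine sum_mem fun i _ => ?_
    rw [Algebra.smul_def, map_mul, φ.commutes, hi1]
    refine mul_mem (IntermediateField.algebraMap_mem _ _) ?_
    exact IntermediateField.subset_adjoin M S ⟨(φ, i), rfl⟩
  let ψ : (N →ₐ[K] AlgebraicClosure M) → (N →+* M') := fun φ =>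
    φ.toRingHom.codRestrict M'.toSubfield.toSubring (hmem φ)
  have hψ : ∀ φ a, ((ψ φ a : M') : AlgebraicClosure M) = φ a := fun φ a => rfl
  let τ' : K →+* M' := (algebraMap M M').comp τ
  have hτ' : ∀ z : ℂ, τ' (algebraMap ℂ K z) = algebraMap Ω M' (algebraMap ℂ Ω z) := by
    intro z
    change algebraMap M M' (τ _) = _
    rw [hτ, ← IsScalarTower.algebraMap_apply]
  have hψK : ∀ φ (a : K), ψ φ (algebraMap K N a) = τ' a := by
    intro φ a
    apply Subtype.ext
    rw [hψ, φ.commutes, hi1]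
    rfl
  have htr : ∀ a : N, ∑ φ, ψ φ a = τ' (Algebra.trace K N a) := by
    intro a
    apply Subtype.ext
    have h1 := trace_eq_sum_embeddings (K := K) (L := N) (AlgebraicClosure M) (x := a)
    have h2 : ((∑ φ, ψ φ a : M') : AlgebraicClosure M) = ∑ φ, ((ψ φ a : M') : AlgebraicClosure M) :=
      map_sum (algebraMap M' (AlgebraicClosure M)) _ _
    rw [h2]
    simp only [hψ]
    rw [← h1, hi1]
    rfl
  -- the generators on `N`
  let f' : M' := algebraMap M M' f
  have hf'0 : f' ≠ 0 := by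
    intro h
    exact hf0 ((map_eq_zero _).1 h)
  have hfin' : (Function.support fun w : Place Ω M' => w.ord f').Finite := finite_support f'
  have hsum' : ∀ C : Set (Place Ω M'), ∑ᶠ w ∈ C, w.ord f' =
      ∑ w ∈ hfin'.toFinset with w ∈ C, w.ord f' := fun C => finsum_mem_eq_sum_filter _ C hfin'
  have hfin : (Function.support fun v : Place Ω M => v.ord f).Finite := finite_support f
  have hsum : ∀ C : Set (Place Ω M), ∑ᶠ v ∈ C, v.ord f =
      ∑ v ∈ hfin.toFinset with v ∈ C, v.ord f := fun C => finsum_mem_eq_sum_filter _ C hfin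
  have hcyc : ∀ φ : N →ₐ[K] AlgebraicClosure M, ∃ c : (N →ₐ[ℂ] Ω) →₀ ℤ, ∀ ν : N →ₐ[ℂ] Ω,
      c ν = ∑ᶠ w ∈ {w : Place Ω M' | CentredAt (ψ φ) w ν}, w.ord f' := by
    intro φ
    have hfs : {ν : N →ₐ[ℂ] Ω | ∑ᶠ w ∈ {w : Place Ω M' | CentredAt (ψ φ) w ν}, w.ord f' ≠ 0}.Finite := by
      have hex : ∀ ν : N →ₐ[ℂ] Ω, ∃ w : Place Ω M',
          (∑ᶠ w ∈ {w : Place Ω M' | CentredAt (ψ φ) w ν}, w.ord f' ≠ 0) →
          w ∈ hfin'.toFinset ∧ CentredAt (ψ φ) w ν := by
        intro ν
        by_cases h : ∑ᶠ w ∈ {w : Place Ω M' | CentredAt (ψ φ) w ν}, w.ord f' ≠ 0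
        · rw [hsum'] at h
          obtain ⟨w, hw, -⟩ := Finset.exists_ne_zero_of_sum_ne_zero h
          rw [Finset.mem_filter] at hw
          exact ⟨w, fun _ => hw⟩
        · obtain ⟨w, -⟩ := exists_place (k := Ω) (K := M')
          exact ⟨w, fun h' => absurd h' h⟩
      choose wc hwc using hex
      refine Set.Finite.of_injOn (f := wc) (t := (hfin'.toFinset : Set (Place Ω M')))
        (fun ν hν => (hwc ν hν).1) (fun ν hν ν' hν' h => ?_) (Finset.finite_toSet _)
      have h1 := (hwc ν hν).2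
      rw [h] at h1
      exact centre_unique h1 (hwc ν' hν').2
    refine ⟨Finsupp.onFinset hfs.toFinset _ fun ν h => ?_, fun ν => rfl⟩
    exact (Set.Finite.mem_toFinset _).2 h
  choose cy hcy using hcyc
  have hcyR : ∀ φ, cy φ ∈ Rat N Ω := by
    intro φ
    refine AddSubgroup.subset_closure ⟨M', inferInstance, inferInstance, hM'FF, ψ φ, f', ?_, hf'0,
      hcy φ⟩
    intro z
    rw [IsScalarTower.algebraMap_apply ℂ K N, hψK, hτ']
  -- the sum
  have hmain : ∑ φ, cy φ = Module.finrank M M' • liftC N g := by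
    ext ν
    rw [Finsupp.finsetSum_apply, Finsupp.smul_apply, liftC_apply, nsmul_eq_mul]
    obtain ⟨σ, hσ⟩ : ∃ σ, σ = restr K Ω ν := ⟨_, rfl⟩
    rw [← hσ, hg σ, hsum]
    simp only [hcy, hsum', Finset.sum_filter]
    rw [Finset.sum_comm]
    -- the places with centre `σ`
    have hdown : ∀ φ (w : Place Ω M'), CentredAt (ψ φ) w ν → CentredAt τ' w σ := by
      intro φ w h a
      have h1 := h (algebraMap K N a)
      rw [hψK] at h1
      rw [hσ]
      exact h1
    have hin : ∀ w : Place Ω M', (∑ φ, if w ∈ {w | CentredAt (ψ φ) w ν} then w.ord f' else 0) =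
        if CentredAt τ' w σ then w.ord f' else 0 := by
      intro w
      by_cases hw : CentredAt τ' w σ
      · rw [if_pos hw, Finset.sum_ite, Finset.sum_const_zero, add_zero, Finset.sum_const]
        have h1 := centre_count σ ψ τ' hψK hτ' htr w hw ν hσ.symm
        have h2 : (Finset.univ.filter fun φ => w ∈ {w | CentredAt (ψ φ) w ν}).card = 1 := by
          rw [← h1]
          congr 1
        rw [h2, one_smul]
      · rw [if_neg hw]
        refine Finset.sum_eq_zero fun φ _ => ?_
        rw [if_neg]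
        intro h
        exact hw (hdown φ w h)
    rw [Finset.sum_congr rfl fun w _ => hin w]
    -- group by the places below
    have hbel : ∀ w : Place Ω M', ∃ (v : Place Ω M) (e : ℕ), Over w v e := fun w => by
      obtain ⟨e, v, h⟩ := Pool.Agent.W73.PG.PULL.exists_over' (K := M) w
      exact ⟨v, e, h⟩
    choose bel e he using hbel
    have hcen : ∀ (w : Place Ω M'), CentredAt τ' w σ ↔ CentredAt τ (bel w) σ := by
      intro w
      unfold CentredAt
      refine forall_congr' fun a => ?_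
      have h1 : τ' a = algebraMap M M' (τ a) := rfl
      have h2 : algebraMap Ω M' (σ a) = algebraMap M M' (algebraMap Ω M (σ a)) :=
        IsScalarTower.algebraMap_apply Ω M M' _
      rw [h1, h2, ← map_sub, (he w).2, (algebraMap M M').injective.eq_iff]
      have h3 : (0 : ℤ) < e w := by exact_mod_cast (he w).1
      constructor
      · rintro (h | h)
        · exact Or.inl h
        · exact Or.inr ((mul_pos_iff_of_pos_left h3).1 h)
      · rintro (h | h)
        · exact Or.inl h
        · exact Or.inr (mul_pos h3 h)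
    have hmaps : ∀ w ∈ hfin'.toFinset, bel w ∈ hfin.toFinset := by
      intro w hw
      rw [Set.Finite.mem_toFinset, Function.mem_support] at hw ⊢
      intro h
      apply hw
      have h1 := (he w).2 f
      rw [h, mul_zero] at h1
      exact h1
    rw [← Finset.sum_fiberwise_of_maps_to hmaps, Finset.mul_sum]
    refine Finset.sum_congr rfl fun v hv => ?_
    by_cases hvc : CentredAt τ v σ
    · have hvc' : v ∈ {v | CentredAt τ v σ} := hvc
      rw [if_pos hvc']
      obtain ⟨S', e', hS1, hS2, hS3⟩ := exists_over_sum (F' := M') v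
      have h1 : ∀ w ∈ hfin'.toFinset.filter (fun w => bel w = v),
          (if CentredAt τ' w σ then w.ord f' else 0) = (e' w : ℤ) * v.ord f := by
        intro w hw
        have h2 := (Finset.mem_filter.1 hw).2
        have h3 := he w
        rw [h2] at h3
        rw [if_pos ((hcen w).2 (by rw [h2]; exact hvc)),
          Over.unique (hS2 w (hS1 w _ h3)) h3]
        exact h3.2 f
      rw [Finset.sum_congr rfl h1, ← Finset.sum_mul]
      congr 1
      rw [← hS3]
      push_cast
      symm
      refine (Finset.sum_subset_zero_on_sdiff ?_ ?_ fun w _ => rfl).symm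
      · intro w hw
        have h2 := (Finset.mem_filter.1 hw).2
        have h3 := he w
        rw [h2] at h3
        exact hS1 w _ h3
      · intro w hw
        exfalso
        rw [Finset.mem_sdiff, Finset.mem_filter, Set.Finite.mem_toFinset,
          Function.mem_support] at hw
        have h2 := hS2 w hw.1
        have h3 : bel w = v := (Pool.Agent.Y172.over_unique' (he w) h2).1
        refine hw.2 ⟨?_, h3⟩
        have h4 : w.ord f' = _ := h2.2 f
        rw [h4]
        rw [Set.Finite.mem_toFinset, Function.mem_support] at hv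
        exact mul_ne_zero (by exact_mod_cast h2.1.ne') hv
    · have hvc' : v ∉ {v | CentredAt τ v σ} := hvc
      rw [if_neg hvc', mul_zero]
      refine Finset.sum_eq_zero fun w hw => ?_
      rw [if_neg]
      rw [hcen, (Finset.mem_filter.1 hw).2]
      exact hvc
  refine ⟨Module.finrank M M', Module.finrank_pos, ?_⟩
  rw [← hmain]
  exact sum_mem fun φ _ => hcyR φ

theorem lift_mem {c : (K →ₐ[ℂ] Ω) →₀ ℤ} (hc : c ∈ RatT K Ω) : liftC N c ∈ RatT N Ω := by
  obtain ⟨n, hn, h⟩ := hc
  refine RatT_of_nsmul hn ?_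
  rw [← map_nsmul]
  have hle : Pool.Agent.N162.BC.Rat K Ω ≤ (RatT N Ω).comap (liftC N) := by
    conv_lhs => unfold Pool.Agent.N162.BC.Rat
    rw [AddSubgroup.closure_le]
    rintro g ⟨M, hM, a1, hFF, τ, f, hτ, hf0, hg⟩
    exact lift_gen τ f hτ hf0 g hg
  exact hle h

end

section

variable {K N M Ω : Type} [Field K] [Field N] [Field M] [Algebra ℂ K] [Algebra ℂ N] [Algebra ℂ M]
  [Algebra K N] [Algebra M N] [IsScalarTower ℂ K N] [IsScalarTower ℂ M N]
  [FiniteDimensional K N] [FiniteDimensional M N] [Field Ω] [Algebra ℂ Ω] [IsAlgClosed Ω]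

theorem Phi_mem {c : (K →ₐ[ℂ] Ω) →₀ ℤ} (hc : c ∈ RatT K Ω) : Phi N M c ∈ RatT M Ω :=
  push_mem (lift_mem hc)

end

end Pool.Agent.H32.SJ
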