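import Pool.Agent.H32.SJ.Defs
import Pool.Graph.R_seed8.W603.CX.Basic
import Pool.Graph.R_pool_sql_team_seeded_63374d34.N162.BC.Pull

/-!
Zero-cycles on birationally ruled surfaces.
-/

set_option autoImplicit false
set_option linter.overlappingInstances false
set_option linter.unusedSectionVars false

open FF Polynomial Pool.Agent.W603.LV Pool.Agent.W602.GT Pool.Agent.N162.BC Pool.Agent.W603.CX

namespace Pool.Agent.H32.SJ

/-- a generator of the field of rational functions has exactly one zero -/
theorem one_zero {Ω : Type} [Field Ω] [CharZero Ω] [IsAlgClosed Ω] {f : RatFunc Ω}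
    (hf : IntermediateField.adjoin Ω {f} = ⊤) :
    ∃ P : Place Ω (RatFunc Ω), P.ord f = 1 ∧ ∀ Q : Place Ω (RatFunc Ω), 0 < Q.ord f → Q = P := by
  have htr : Transcendental Ω f := by
    intro h
    have h1 : FiniteDimensional Ω (IntermediateField.adjoin Ω {f}) :=
      IntermediateField.adjoin.finiteDimensional h.isIntegral
    rw [hf] at h1
    have h2 : FiniteDimensional Ω (RatFunc Ω) :=
      IntermediateField.topEquiv.toLinearEquiv.finiteDimensional
    exact RatFunc.transcendental_X (Algebra.IsAlgebraic.isAlgebraic (R := Ω) (RatFunc.X : RatFunc Ω))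
  obtain ⟨S, hS1, hS2, hS3⟩ := zeros (k := Ω) (K := RatFunc Ω) htr
  have h1 : Module.finrank (IntermediateField.adjoin Ω {f}) (RatFunc Ω) = 1 := by
    rw [hf]
    exact IntermediateField.finrank_top
  rw [h1] at hS3
  have hpos : ∀ w ∈ S, 1 ≤ (w.ord f).toNat * w.deg := by
    intro w hw
    have h2 := (hS1 w).1 hw
    have h3 := hS2 w hw
    exact Nat.one_le_iff_ne_zero.2 (Nat.mul_ne_zero (by omega) (by omega))
  have hcard : S.card = 1 := by
    have h2 : S.card ≤ 1 := by
      rw [← hS3]
      calc S.card = ∑ w ∈ S, 1 := by simp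
        _ ≤ _ := Finset.sum_le_sum hpos
    have h3 : S.card ≠ 0 := by
      intro h
      rw [Finset.card_eq_zero.1 h, Finset.sum_empty] at hS3
      exact zero_ne_one hS3
    omega
  obtain ⟨P, hP⟩ := Finset.card_eq_one.1 hcard
  rw [hP, Finset.sum_singleton] at hS3
  refine ⟨P, ?_, fun Q hQ => ?_⟩
  · have h2 := Nat.eq_one_of_mul_eq_one_right hS3
    omega
  · have h2 := (hS1 Q).2 hQ
    rw [hP] at h2
    exact Finset.mem_singleton.1 h2

/-- the points `b` and zero of the projective line -/
theorem two_points {Ω : Type} [Field Ω] [CharZero Ω] [IsAlgClosed Ω] {b : Ω} (hb : b ≠ 0) :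
    ∃ f : RatFunc Ω, ∃ P Q : Place Ω (RatFunc Ω), f ≠ 0 ∧ P.ord f = 1 ∧
      (∀ R : Place Ω (RatFunc Ω), R.ord f ≠ 0 → R = P ∨ R = Q) ∧
      P.ord (RatFunc.X - RatFunc.C b) = 1 ∧ Q.ord (RatFunc.X : RatFunc Ω) = 1 := by
  have hX : (RatFunc.X : RatFunc Ω) ≠ 0 := RatFunc.X_ne_zero
  have hC : (RatFunc.C b : RatFunc Ω) ≠ 0 := by simpa using hb
  have hXb : (RatFunc.X - RatFunc.C b : RatFunc Ω) ≠ 0 := by
    intro h
    refine RatFunc.transcendental_X (K := Ω) ?_
    rw [sub_eq_zero.1 h]
    exact isAlgebraic_algebraMap b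
  have hCa : (RatFunc.C b : RatFunc Ω) = algebraMap Ω (RatFunc Ω) b := rfl
  obtain ⟨f, hf⟩ : ∃ f : RatFunc Ω, f = (RatFunc.X - RatFunc.C b) / RatFunc.X := ⟨_, rfl⟩
  have hf0 : f ≠ 0 := by
    rw [hf]
    exact div_ne_zero hXb hX
  have h1f : 1 - f = RatFunc.C b / RatFunc.X := by
    rw [hf]
    field_simp
    ring
  have h1f0 : 1 - f ≠ 0 := by
    rw [h1f]
    exact div_ne_zero hC hX
  have hgen : IntermediateField.adjoin Ω {f} = ⊤ := by
    rw [eq_top_iff, ← RatFunc.adjoin_X, IntermediateField.adjoin_simple_le_iff]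
    have h2 : (RatFunc.X : RatFunc Ω) = algebraMap Ω (RatFunc Ω) b / (1 - f) := by
      rw [h1f, ← hCa]
      field_simp
    rw [h2]
    exact div_mem (IntermediateField.algebraMap_mem _ b)
      (sub_mem (one_mem _) (IntermediateField.mem_adjoin_simple_self Ω f))
  have hgen' : IntermediateField.adjoin Ω {f⁻¹} = ⊤ := by
    rw [eq_top_iff, ← hgen, IntermediateField.adjoin_simple_le_iff]
    have h2 := inv_mem (IntermediateField.mem_adjoin_simple_self Ω f⁻¹)
    rwa [inv_inv] at h2
  obtain ⟨P, hP1, hP2⟩ := one_zero hgen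
  obtain ⟨Q, hQ1, hQ2⟩ := one_zero hgen'
  rw [Q.ord_inv] at hQ1
  refine ⟨f, P, Q, hf0, hP1, fun R hR => ?_, ?_, ?_⟩
  · rcases lt_or_gt_of_ne hR with h | h
    · right
      refine hQ2 R ?_
      rw [R.ord_inv]
      omega
    · exact Or.inl (hP2 R h)
  · -- at `P`
    have h2 : P.ord (1 - f) = 0 := by
      have h3 := P.ord_add_eq (f := 1) (g := -f) one_ne_zero (neg_ne_zero.2 hf0)
        (by rw [P.ord_neg, P.ord_one]; omega)
      rw [← sub_eq_add_neg, P.ord_one] at h3
      exact h3.2
    rw [h1f, P.ord_div hC hX, hCa, P.ord_const hb] at h2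
    have h3 := hP1
    rw [hf, P.ord_div hXb hX] at h3
    omega
  · have h2 : Q.ord (1 - f) = Q.ord f := by
      have h3 := Q.ord_add_eq (f := -f) (g := 1) (neg_ne_zero.2 hf0) one_ne_zero
        (by rw [Q.ord_neg, Q.ord_one]; omega)
      rw [neg_add_eq_sub, Q.ord_neg] at h3
      exact h3.2
    rw [h1f, Q.ord_div hC hX, hCa, Q.ord_const hb] at h2
    omega

theorem degenerate_of_ruled {K : Type} [Field K] [Algebra ℂ K] (h : IsRuled K) :
    Degenerate K := by
  classical
  obtain ⟨F, _, _, ⟨e⟩⟩ := h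
  intro Ω _ _ _ hΩ σ
  have hcΩ : CharZero Ω := charZero_of_injective_algebraMap (algebraMap ℂ Ω).injective
  refine ⟨1, one_pos, ?_⟩
  rw [one_smul]
  -- the map to the line
  let σ' : RatFunc F →+* Ω := σ.toRingHom.comp e.symm.toRingEquiv.toRingHom
  have hσ' : ∀ a : K, σ' (e a) = σ a := by
    intro a
    change σ (e.symm (e a)) = _
    rw [AlgEquiv.symm_apply_apply]
  let s : F →+* Ω := σ'.comp (RatFunc.C : F →+* RatFunc F)
  have hs : Function.Injective s := s.injective
  let φ : (Polynomial F) →+* RatFunc Ω := (algebraMap (Polynomial Ω) (RatFunc Ω)).comp (Polynomial.mapRingHom s)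
  have hφ : Function.Injective φ :=
    (RatFunc.algebraMap_injective Ω).comp (Polynomial.map_injective s hs)
  have hφ' : nonZeroDivisors (Polynomial F) ≤ (nonZeroDivisors (RatFunc Ω)).comap φ :=
    nonZeroDivisors_le_comap_nonZeroDivisors_of_injective _ hφ
  let τ' : RatFunc F →+* RatFunc Ω := RatFunc.liftRingHom φ hφ'
  have hτ' : ∀ p : (Polynomial F), τ' (algebraMap (Polynomial F) (RatFunc F) p) =
      algebraMap (Polynomial Ω) (RatFunc Ω) (p.map s) := fun p => RatFunc.liftRingHom_algebraMap φ hφ' p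
  have hτX : τ' RatFunc.X = RatFunc.X := by
    rw [← RatFunc.algebraMap_X, hτ', Polynomial.map_X, RatFunc.algebraMap_X]
  have hτC : ∀ a : F, τ' (RatFunc.C a) = algebraMap Ω (RatFunc Ω) (s a) := by
    intro a
    rw [← RatFunc.algebraMap_C, hτ', Polynomial.map_C, RatFunc.algebraMap_C]
    rfl
  obtain ⟨b, hbdef⟩ : ∃ b, b = σ' RatFunc.X := ⟨_, rfl⟩
  have hb : b ≠ 0 := by
    rw [hbdef]
    exact (_root_.map_ne_zero σ').2 RatFunc.X_ne_zero
  obtain ⟨f, P, Q, hf0, hP, hR, hPX, hQX⟩ := two_points hb
  have hCa : (RatFunc.C b : RatFunc Ω) = algebraMap Ω (RatFunc Ω) b := rfl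
  -- the centre of `P`
  have hPX' : Ge P 1 (RatFunc.X - algebraMap Ω (RatFunc Ω) b) := Or.inr hPX.ge
  let S : Subfield (RatFunc F) :=
    { carrier := {κ | Ge P 1 (τ' κ - algebraMap Ω (RatFunc Ω) (σ' κ))}
      one_mem' := by
        change Ge P 1 _
        rw [map_one, map_one, map_one, sub_self]
        exact Ge.zero
      zero_mem' := by
        change Ge P 1 _
        rw [map_zero, map_zero, map_zero, sub_self]
        exact Ge.zero
      add_mem' := by
        intro x y hx hy
        change Ge P 1 _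
        have h1 := Ge.add hx hy
        rw [map_add, map_add, map_add, add_sub_add_comm]
        exact h1
      neg_mem' := by
        intro x hx
        change Ge P 1 _
        have h1 := Ge.neg hx
        rw [map_neg, map_neg, map_neg, neg_sub_neg, ← neg_sub]
        exact h1
      mul_mem' := by
        intro x y hx hy
        change Ge P 1 (τ' (x * y) - algebraMap Ω (RatFunc Ω) (σ' (x * y)))
        have h0 : Ge P 0 (τ' x) := by
          have h1 := (Ge.mono (zero_le_one) hx).add (Ge.const (P := P) (σ' x))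
          rwa [sub_add_cancel] at h1
        have h1 := h0.mul hy
        have h2 := (Ge.const (P := P) (σ' y)).mul hx
        rw [zero_add] at h1 h2
        have h3 := h1.add h2
        have h4 : τ' (x * y) - algebraMap Ω (RatFunc Ω) (σ' (x * y)) =
          τ' x * (τ' y - algebraMap Ω (RatFunc Ω) (σ' y)) +
            algebraMap Ω (RatFunc Ω) (σ' y) * (τ' x - algebraMap Ω (RatFunc Ω) (σ' x)) := by
          rw [map_mul, map_mul, map_mul]
          ring
        rw [h4]
        exact h3
      inv_mem' := by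
        intro x hx
        change Ge P 1 (τ' x⁻¹ - algebraMap Ω (RatFunc Ω) (σ' x⁻¹))
        by_cases hx0 : x = 0
        · rw [hx0, inv_zero, map_zero, map_zero, map_zero, sub_self]
          exact Ge.zero
        have h2 : σ' x ≠ 0 := (_root_.map_ne_zero σ').2 hx0
        have h3 : algebraMap Ω (RatFunc Ω) (σ' x) ≠ 0 := (_root_.map_ne_zero _).2 h2
        have h3' : τ' x ≠ 0 := (_root_.map_ne_zero _).2 hx0
        have h4 : P.ord (τ' x) = 0 := by
          rcases hx with h | h
          · rw [sub_eq_zero.1 h]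
            exact P.ord_const h2
          · by_cases h0 : τ' x - algebraMap Ω (RatFunc Ω) (σ' x) = 0
            · rw [sub_eq_zero.1 h0]
              exact P.ord_const h2
            have h5 := P.ord_add_eq h3 h0 (by rw [P.ord_const h2]; omega)
            rw [add_sub_cancel, P.ord_const h2] at h5
            exact h5.2
        have h5 : τ' x⁻¹ - algebraMap Ω (RatFunc Ω) (σ' x⁻¹) =
          (algebraMap Ω (RatFunc Ω) (σ' x) * τ' x)⁻¹ *
            -(τ' x - algebraMap Ω (RatFunc Ω) (σ' x)) := by
          rw [map_inv₀, map_inv₀, map_inv₀]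
          field_simp
          ring
        rw [h5]
        have h6 : Ge P 0 (algebraMap Ω (RatFunc Ω) (σ' x) * τ' x)⁻¹ := by
          right
          rw [P.ord_inv, P.ord_mul h3 h3', P.ord_const h2, h4]
          simp
        have h7 := h6.mul hx.neg
        rwa [zero_add] at h7 }
  have hSC : ∀ a : F, RatFunc.C a ∈ S := by
    intro a
    change Ge P 1 _
    left
    rw [hτC, sub_eq_zero]
    rfl
  have hSX : RatFunc.X ∈ S := by
    change Ge P 1 _
    rw [hτX, ← hbdef]
    exact hPX'
  have hSp : ∀ p : Polynomial F, algebraMap (Polynomial F) (RatFunc F) p ∈ S := by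
    intro p
    induction p using Polynomial.induction_on with
    | C a =>
      rw [RatFunc.algebraMap_C]
      exact hSC a
    | add p q hp hq =>
      rw [map_add]
      exact add_mem hp hq
    | monomial n a h =>
      rw [pow_succ, ← mul_assoc, map_mul, RatFunc.algebraMap_X]
      exact mul_mem h hSX
  have hPc : ∀ κ : RatFunc F, Ge P 1 (τ' κ - algebraMap Ω (RatFunc Ω) (σ' κ)) := by
    intro κ
    have h1 : κ ∈ S := by
      rw [← RatFunc.num_div_denom κ]
      exact div_mem (hSp _) (hSp _)
    exact h1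
  have hPσ : CentredAt (τ'.comp e.toRingEquiv.toRingHom) P σ := by
    rw [centred_iff]
    intro a
    have h1 := hPc (e a)
    rw [hσ'] at h1
    exact h1
  have hQn : ∀ ν : K →ₐ[ℂ] Ω, ¬ CentredAt (τ'.comp e.toRingEquiv.toRingHom) Q ν := by
    intro ν h
    rw [centred_iff] at h
    have h1 := h (e.symm RatFunc.X)
    have h2 : (τ'.comp e.toRingEquiv.toRingHom) (e.symm RatFunc.X) = RatFunc.X := by
      change τ' (e (e.symm RatFunc.X)) = _
      rw [AlgEquiv.apply_symm_apply, hτX]
    rw [h2] at h1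
    have h3 : Ge Q 1 (RatFunc.X : RatFunc Ω) := Or.inr hQX.ge
    have h4 := h3.sub h1
    rw [sub_sub_cancel] at h4
    have h5 := not_ge_const h4
    have h6 : e.symm RatFunc.X = 0 := (map_eq_zero ν).1 h5
    exact RatFunc.X_ne_zero ((map_eq_zero e.symm).1 h6)
  refine AddSubgroup.subset_closure ⟨RatFunc Ω, inferInstance, inferInstance, inferInstance,
    τ'.comp e.toRingEquiv.toRingHom, f, fun z => ?_, hf0, fun ν => ?_⟩
  · have h1 : e (algebraMap ℂ K z) = RatFunc.C (algebraMap ℂ F z) := by
      rw [e.commutes z]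
      rfl
    change τ' (e (algebraMap ℂ K z)) = _
    rw [h1, hτC]
    congr 1
    change σ' (RatFunc.C (algebraMap ℂ F z)) = _
    rw [← h1, hσ', σ.commutes]
  · have hzero : ∀ v : Place Ω (RatFunc Ω), v ∈ {v | CentredAt (τ'.comp e.toRingEquiv.toRingHom) v ν} →
        v ≠ P → v.ord f = 0 := by
      intro v hv hvP
      by_contra h
      rcases hR v h with h1 | h1
      · exact hvP h1
      · rw [h1] at hv
        exact hQn ν hv
    by_cases hν : ν = σ
    · rw [hν, Finsupp.single_eq_same]
      rw [hν] at hzero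
      rw [finsum_eq_single _ P]
      · rw [finsum_eq_if, if_pos (show P ∈ {v | CentredAt (τ'.comp e.toRingEquiv.toRingHom) v σ} from hPσ),
          hP]
      · intro v hv
        rw [finsum_eq_if]
        split_ifs with h
        · exact hzero v h hv
        · rfl
    · rw [Finsupp.single_eq_of_ne (Ne.symm (Ne.symm hν)), finsum_eq_zero_of_forall_eq_zero]
      intro v
      rw [finsum_eq_if]
      split_ifs with h
      · refine hzero v h ?_
        rintro rfl
        exact hν (centre_unique h hPσ)
      · rfl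

end Pool.Agent.H32.SJ
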